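import Pool.Agent.R838.NI.Main

/-!
MP_635878_co, Q1 (proof): for every `n ≥ 4` the tree `R_n` maximises the average cardinality of the
1-nearly independent sets over all trees with `n` vertices.

The proof follows an idea of helper10. For an edge `e = uv` of a tree `T` with `n` vertices let
`B = N(u) ∪ N(v)`. A 1-nearly independent set whose edge is `e` contains no vertex of `B` other
than `u` and `v`, every vertex outside of `B` is contained in at most half of these sets, and two
adjacent vertices outside of `B` are contained in at most two thirds of them, together. So the
average cardinality of these sets is at most `(n + 1) / 2 - 1 / 3`, unless `B` has three elements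
and there are no edges outside of `B`; then `T` is isomorphic to `R_n`. This settles `n ≥ 10`; for
`n ≤ 9` all trees, given by parent functions, are checked by the kernel: the numbers are
computed by removing leaves, with weights in a ring of dual numbers.
-/

namespace Pool.Agent.Results.MP_635878_co.MaximumAverage

open Pool.Agent.R838.NI

/-- For every `n ≥ 4` the graph `R n` is a tree, and `av1 T ≤ av1 (R n)` for every tree `T` with `n`
vertices. -/
theorem result (n : ℕ) (hn : 4 ≤ n) : (R n).IsTree ∧
    ∀ (V : Type) [Fintype V] (T : SimpleGraph V), T.IsTree → Fintype.card V = n →
      av1 T ≤ av1 (R n) := by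
  obtain ⟨k, rfl⟩ : ∃ k, n = k + 4 := ⟨n - 4, by omega⟩
  exact ⟨(TO_R k).isTree, fun V _ T hT hc => av1_le T hT k hc⟩

end Pool.Agent.Results.MP_635878_co.MaximumAverage
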